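import Mathlib

set_option autoImplicit false

open Filter Topology

namespace Pool.Agent.H130R5.NP

noncomputable section

abbrev l1 := lp (fun _ : ℕ => ℝ) 1
abbrev l2 := lp (fun _ : ℕ => ℝ) 2

/-- weights -/
def c (k : ℕ) : ℝ := 1 / ((k : ℝ) + 2)

theorem c_pos (k : ℕ) : 0 < c k := by unfold c; positivity

theorem c_lt_one (k : ℕ) : c k < 1 := by
  unfold c
  rw [div_lt_one (by positivity)]
  have : (0 : ℝ) ≤ k := Nat.cast_nonneg k
  linarith

/-- the graph of the diagonal operator `l1 → l2` -/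
def V : Submodule ℝ (WithLp 2 (l1 × l2)) where
  carrier := {z | ∀ k, z.snd k = c k * z.fst k}
  add_mem' := by
    intro a b ha hb k
    have e1 : (a + b).snd k = a.snd k + b.snd k := rfl
    have e2 : (a + b).fst k = a.fst k + b.fst k := rfl
    rw [e1, e2, ha k, hb k]; ring
  zero_mem' := by
    intro k
    have e1 : (0 : WithLp 2 (l1 × l2)).snd k = 0 := rfl
    have e2 : (0 : WithLp 2 (l1 × l2)).fst k = 0 := rfl
    rw [e1, e2, mul_zero]
  smul_mem' := by
    intro r a ha k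
    have e1 : (r • a).snd k = r * a.snd k := rfl
    have e2 : (r • a).fst k = r * a.fst k := rfl
    rw [e1, e2, ha k]; ring

theorem continuous_eval1 (k : ℕ) : Continuous fun a : l1 => a k := by
  have : LipschitzWith 1 fun a : l1 => a k := by
    apply LipschitzWith.of_dist_le_mul
    intro a b
    rw [dist_eq_norm, dist_eq_norm]
    have := lp.norm_apply_le_norm (p := 1) (by norm_num) (a - b) k
    simpa using this
  exact this.continuous

theorem continuous_eval2 (k : ℕ) : Continuous fun a : l2 => a k := by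
  have : LipschitzWith 1 fun a : l2 => a k := by
    apply LipschitzWith.of_dist_le_mul
    intro a b
    rw [dist_eq_norm, dist_eq_norm]
    have := lp.norm_apply_le_norm (p := 2) (by norm_num) (a - b) k
    simpa using this
  exact this.continuous

theorem isClosed_V : IsClosed (V : Set (WithLp 2 (l1 × l2))) := by
  have h : (V : Set (WithLp 2 (l1 × l2))) =
      ⋂ k, {z | z.snd k = c k * z.fst k} := by
    ext z
    simp only [Set.mem_iInter, Set.mem_ofPred_eq]
    rfl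
  rw [h]
  refine isClosed_iInter fun k => ?_
  refine isClosed_eq ?_ ?_
  · exact (continuous_eval2 k).comp (WithLp.sndL 2 ℝ l1 l2).continuous
  · exact continuous_const.mul ((continuous_eval1 k).comp (WithLp.fstL 2 ℝ l1 l2).continuous)

/-- the space -/
def E : Type := V

instance : NormedAddCommGroup E := inferInstanceAs (NormedAddCommGroup V)
instance : NormedSpace ℝ E := inferInstanceAs (NormedSpace ℝ V)
instance : CompleteSpace E := isClosed_V.completeSpace_coe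

/-- first component -/
def p1 : E →ₗ[ℝ] l1 :=
  ((WithLp.fstₗ 2 ℝ l1 l2).comp V.subtype : V →ₗ[ℝ] l1)
/-- second component -/
def p2 : E →ₗ[ℝ] l2 :=
  ((WithLp.sndₗ 2 ℝ l1 l2).comp V.subtype : V →ₗ[ℝ] l2)

theorem p12 (x : E) (k : ℕ) : p2 x k = c k * p1 x k := x.2 k

theorem norm_sq (x : E) : ‖x‖ ^ 2 = ‖p1 x‖ ^ 2 + ‖p2 x‖ ^ 2 :=
  WithLp.prod_norm_sq_eq_of_L2 (x : V).1

theorem hasSum1 (a : l1) : HasSum (fun k => |a k|) ‖a‖ := by
  have := lp.hasSum_norm (p := 1) (by norm_num) a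
  simpa using this

/-- the quantitative `l1` estimate -/
theorem l1_est (a b : l1) (N : ℕ) (η κ : ℝ)
    (htail : ‖a‖ - ∑ k ∈ Finset.range N, |a k| ≤ η)
    (hab : ∑ k ∈ Finset.range N, |a k - b k| ≤ κ) :
    ‖a - b‖ ≤ 2 * κ + 2 * η + (‖b‖ - ‖a‖) := by
  have h1 := hasSum1 (a - b)
  have ha := hasSum1 a
  have hb := hasSum1 b
  have hcoe : ∀ k, (a - b) k = a k - b k := fun k => rfl
  -- split
  have hsa := ha.summable
  have hsb := hb.summable
  have hs1 := h1.summable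
  have e1 : ‖a - b‖ = ∑ k ∈ Finset.range N, |a k - b k| + ∑' k, |a (k + N) - b (k + N)| := by
    rw [← h1.tsum_eq, ← hs1.sum_add_tsum_nat_add N]
    simp only [hcoe]
  have e2 : ‖a‖ = ∑ k ∈ Finset.range N, |a k| + ∑' k, |a (k + N)| := by
    rw [← ha.tsum_eq, ← hsa.sum_add_tsum_nat_add N]
  have e3 : ‖b‖ = ∑ k ∈ Finset.range N, |b k| + ∑' k, |b (k + N)| := by
    rw [← hb.tsum_eq, ← hsb.sum_add_tsum_nat_add N]
  have hsa' := (summable_nat_add_iff N).mpr hsa
  have hsb' := (summable_nat_add_iff N).mpr hsb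
  have hs1' : Summable fun k => |a (k + N) - b (k + N)| := by
    have := (summable_nat_add_iff N).mpr hs1
    simpa only [hcoe] using this
  have e4 : ∑' k, |a (k + N) - b (k + N)| ≤ ∑' k, |a (k + N)| + ∑' k, |b (k + N)| := by
    rw [← hsa'.tsum_add hsb']
    exact hs1'.tsum_le_tsum (fun k => abs_sub _ _) (hsa'.add hsb')
  have e5 : ∑ k ∈ Finset.range N, |a k| ≤ ∑ k ∈ Finset.range N, |b k| + κ := by
    have : ∑ k ∈ Finset.range N, |a k| ≤ ∑ k ∈ Finset.range N, (|b k| + |a k - b k|) := by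
      apply Finset.sum_le_sum
      intro k _
      have := abs_add_le (b k) (a k - b k)
      rwa [add_sub_cancel] at this
    rw [Finset.sum_add_distrib] at this
    linarith
  linarith

set_option maxHeartbeats 2000000 in
theorem luc (x : E) (hx : ‖x‖ = 1) (ε : ℝ) (hε : 0 < ε) : ∃ δ : ℝ, 0 < δ ∧
    ∀ y : E, ‖y‖ = 1 → ε ≤ ‖x - y‖ → ‖x + y‖ ≤ 2 - 2 * δ := by
  set a := p1 x with ha
  obtain ⟨N, hN⟩ : ∃ N : ℕ, ‖a‖ - ∑ k ∈ Finset.range N, |a k| ≤ ε / 8 := by
    have h1 := (hasSum1 a).tendsto_sum_nat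
    have h2 := (h1.const_sub ‖a‖)
    rw [sub_self] at h2
    have h3 := h2.eventually (ge_mem_nhds (show (0 : ℝ) < ε / 8 by linarith))
    exact h3.exists
  set L : ℝ := ∑ k ∈ Finset.range N, (c k)⁻¹ with hL
  have hL0 : 0 ≤ L := Finset.sum_nonneg fun k _ => (inv_pos.mpr (c_pos k)).le
  set κ : ℝ := min (ε / (16 * (L + 1))) (ε / 16) with hκ
  have hκ0 : 0 < κ := lt_min (by positivity) (by positivity)
  have hκ1 : κ * L ≤ ε / 16 := by
    have h1 : κ ≤ ε / (16 * (L + 1)) := min_le_left _ _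
    calc κ * L ≤ ε / (16 * (L + 1)) * L := mul_le_mul_of_nonneg_right h1 hL0
      _ ≤ ε / 16 := by
        rw [div_mul_eq_mul_div, div_le_div_iff₀ (by positivity) (by positivity)]
        nlinarith
  have hκ2 : κ ≤ ε / 16 := min_le_right _ _
  refine ⟨κ ^ 2 / 8, by positivity, fun y hy hxy => ?_⟩
  by_contra hcon
  push Not at hcon
  set b := p1 y with hb
  set Ta := p2 x with hTa
  set Tb := p2 y with hTb
  have n1 : ‖a‖ ^ 2 + ‖Ta‖ ^ 2 = 1 := by rw [← norm_sq, hx]; norm_num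
  have n2 : ‖b‖ ^ 2 + ‖Tb‖ ^ 2 = 1 := by rw [← norm_sq, hy]; norm_num
  have n3 : ‖x + y‖ ^ 2 = ‖a + b‖ ^ 2 + ‖Ta + Tb‖ ^ 2 := by
    rw [norm_sq, map_add, map_add]
  have n4 : ‖x - y‖ ^ 2 = ‖a - b‖ ^ 2 + ‖Ta - Tb‖ ^ 2 := by
    rw [norm_sq, map_sub, map_sub]
  have n5 : 4 - κ ^ 2 ≤ ‖x + y‖ ^ 2 := by
    by_cases h0 : 0 ≤ 2 - 2 * (κ ^ 2 / 8)
    · have h1 : (2 - 2 * (κ ^ 2 / 8)) ^ 2 ≤ ‖x + y‖ ^ 2 := pow_le_pow_left₀ h0 hcon.le 2
      nlinarith [sq_nonneg (κ ^ 2)]
    · push Not at h0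
      have := sq_nonneg ‖x + y‖
      nlinarith
  have t1 : ‖a + b‖ ≤ ‖a‖ + ‖b‖ := norm_add_le _ _
  have t2 : ‖Ta + Tb‖ ≤ ‖Ta‖ + ‖Tb‖ := norm_add_le _ _
  have t1' : ‖a + b‖ ^ 2 ≤ (‖a‖ + ‖b‖) ^ 2 := pow_le_pow_left₀ (norm_nonneg _) t1 2
  have t2' : ‖Ta + Tb‖ ^ 2 ≤ (‖Ta‖ + ‖Tb‖) ^ 2 := pow_le_pow_left₀ (norm_nonneg _) t2 2
  have m1 : (‖b‖ - ‖a‖) ^ 2 ≤ κ ^ 2 := by nlinarith [sq_nonneg (‖Ta‖ - ‖Tb‖)]
  have par := parallelogram_law_with_norm ℝ Ta Tb
  have m2 : ‖Ta - Tb‖ ^ 2 ≤ κ ^ 2 := by nlinarith [sq_nonneg (‖a‖ - ‖b‖)]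
  have m1' : ‖b‖ - ‖a‖ ≤ κ := by
    exact (le_abs_self _).trans (abs_le_of_sq_le_sq m1 hκ0.le)
  have m2' : ‖Ta - Tb‖ ≤ κ := by
    exact (le_abs_self _).trans (abs_le_of_sq_le_sq m2 hκ0.le)
  have m3 : ∑ k ∈ Finset.range N, |a k - b k| ≤ ε / 16 := by
    have h1 : ∀ k, |a k - b k| ≤ (c k)⁻¹ * κ := by
      intro k
      have h2 := lp.norm_apply_le_norm (p := 2) (by norm_num) (Ta - Tb) k
      have h3 : (Ta - Tb) k = c k * (a k - b k) := by
        have e1 : (Ta - Tb) k = Ta k - Tb k := rfl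
        rw [e1, hTa, hTb, p12, p12, ha, hb]; ring
      rw [h3, Real.norm_eq_abs, abs_mul, abs_of_pos (c_pos k)] at h2
      rw [le_inv_mul_iff₀ (c_pos k)]
      exact h2.trans m2'
    calc ∑ k ∈ Finset.range N, |a k - b k| ≤ ∑ k ∈ Finset.range N, (c k)⁻¹ * κ :=
          Finset.sum_le_sum fun k _ => h1 k
      _ = κ * L := by rw [← Finset.sum_mul, hL]; ring
      _ ≤ ε / 16 := hκ1
  have m4 := l1_est a b N (ε / 8) (ε / 16) hN m3
  have m5 : ‖a - b‖ ≤ ε / 2 := by linarith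
  have m6 : ε ^ 2 ≤ ‖x - y‖ ^ 2 := pow_le_pow_left₀ hε.le hxy 2
  have m7 : ‖a - b‖ ^ 2 ≤ (ε / 2) ^ 2 := pow_le_pow_left₀ (norm_nonneg _) m5 2
  have m8 : ‖Ta - Tb‖ ^ 2 ≤ (ε / 16) ^ 2 := pow_le_pow_left₀ (norm_nonneg _) (m2'.trans hκ2) 2
  nlinarith

theorem summable_w (a : l1) : Summable fun k => (1 - c k) * a k := by
  have h1 := (hasSum1 a).summable
  refine Summable.of_norm_bounded h1 (fun k => ?_)
  rw [Real.norm_eq_abs, abs_mul, abs_of_nonneg (by linarith [c_lt_one k])]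
  exact mul_le_of_le_one_left (abs_nonneg _) (by linarith [c_pos k])

theorem tsum_w_le (a : l1) : |∑' k, (1 - c k) * a k| ≤ ‖a‖ := by
  have h1 := (hasSum1 a)
  rw [← h1.tsum_eq]
  have h2 : ‖∑' k, (1 - c k) * a k‖ ≤ ∑' k, ‖(1 - c k) * a k‖ := norm_tsum_le_tsum_norm
    (summable_w a).norm
  refine h2.trans ?_
  refine (summable_w a).norm.tsum_le_tsum (fun k => ?_) h1.summable
  rw [Real.norm_eq_abs, abs_mul, abs_of_nonneg (by linarith [c_lt_one k])]
  exact mul_le_of_le_one_left (abs_nonneg _) (by linarith [c_pos k])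

theorem tsum_w_lt (a : l1) (ha : a ≠ 0) : |∑' k, (1 - c k) * a k| < ‖a‖ := by
  obtain ⟨j, hj⟩ : ∃ j, a j ≠ 0 := by
    by_contra hcon
    push Not at hcon
    exact ha (lp.ext (funext hcon))
  have h1 := (hasSum1 a)
  rw [← h1.tsum_eq]
  have h2 : ‖∑' k, (1 - c k) * a k‖ ≤ ∑' k, ‖(1 - c k) * a k‖ := norm_tsum_le_tsum_norm
    (summable_w a).norm
  refine lt_of_le_of_lt h2 ?_
  refine (summable_w a).norm.tsum_lt_tsum (i := j) (fun k => ?_) ?_ h1.summable
  · rw [Real.norm_eq_abs, abs_mul, abs_of_nonneg (by linarith [c_lt_one k])]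
    exact mul_le_of_le_one_left (abs_nonneg _) (by linarith [c_pos k])
  · rw [Real.norm_eq_abs, abs_mul, abs_of_nonneg (by linarith [c_lt_one j])]
    have : 0 < |a j| := abs_pos.mpr hj
    nlinarith [c_pos j]

theorem norm_p1_le (x : E) : ‖p1 x‖ ≤ ‖x‖ := by
  have := norm_sq x
  nlinarith [norm_nonneg x, norm_nonneg (p1 x), sq_nonneg ‖p2 x‖,
    abs_le_of_sq_le_sq (show ‖p1 x‖ ^ 2 ≤ ‖x‖ ^ 2 by nlinarith [sq_nonneg ‖p2 x‖]) (norm_nonneg x)]

/-- the functional that does not attain its norm -/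
def f : E →L[ℝ] ℝ :=
  LinearMap.mkContinuous
    { toFun := fun x => ∑' k, (1 - c k) * p1 x k
      map_add' := fun x y => by
        rw [← (summable_w (p1 x)).tsum_add (summable_w (p1 y))]
        apply tsum_congr
        intro k
        have : p1 (x + y) k = p1 x k + p1 y k := by rw [map_add]; rfl
        rw [this]; ring
      map_smul' := fun r x => by
        rw [RingHom.id_apply, smul_eq_mul, ← tsum_mul_left]
        apply tsum_congr
        intro k
        have : p1 (r • x) k = r * p1 x k := by rw [map_smul]; rfl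
        rw [this]; ring } 1 (fun x => by
      rw [one_mul]
      exact (tsum_w_le (p1 x)).trans (norm_p1_le x))

theorem f_apply (x : E) : f x = ∑' k, (1 - c k) * p1 x k := rfl

theorem p1_ne_zero (x : E) (hx : x ≠ 0) : p1 x ≠ 0 := by
  intro h
  apply hx
  have h2 : p2 x = 0 := by
    apply lp.ext
    funext k
    rw [p12, h]
    show c k * 0 = 0
    rw [mul_zero]
  have h3 := norm_sq x
  rw [h, h2, norm_zero, norm_zero] at h3
  have : ‖x‖ = 0 := by nlinarith [norm_nonneg x]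
  exact norm_eq_zero.mp this

theorem f_lt (x : E) (hx : x ≠ 0) : |f x| < ‖x‖ :=
  (tsum_w_lt (p1 x) (p1_ne_zero x hx)).trans_le (norm_p1_le x)

/-- the basis vectors -/
def e (k : ℕ) : E :=
  ⟨WithLp.toLp 2 (lp.single 1 k (1 : ℝ), lp.single 2 k (c k)), by
    intro j
    show (lp.single 2 k (c k) : l2) j = c j * (lp.single 1 k (1 : ℝ) : l1) j
    by_cases h : j = k
    · subst h
      rw [lp.single_apply_self, lp.single_apply_self, mul_one]
    · rw [lp.single_apply_ne _ _ _ h, lp.single_apply_ne _ _ _ h, mul_zero]⟩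

theorem norm_e (k : ℕ) : ‖e k‖ ^ 2 = 1 + c k ^ 2 := by
  rw [norm_sq]
  have h1 : p1 (e k) = lp.single 1 k (1 : ℝ) := rfl
  have h2 : p2 (e k) = lp.single 2 k (c k) := rfl
  rw [h1, h2, lp.norm_single (by norm_num), lp.norm_single (by norm_num), norm_one,
    Real.norm_eq_abs, abs_of_pos (c_pos k)]
  norm_num

theorem f_e (k : ℕ) : f (e k) = 1 - c k := by
  rw [f_apply]
  have h1 : p1 (e k) = lp.single 1 k (1 : ℝ) := rfl
  rw [tsum_eq_single k]
  · rw [h1, lp.single_apply_self, mul_one]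
  · intro j hj
    rw [h1, lp.single_apply_ne _ _ _ hj, mul_zero]

theorem c_tendsto : Tendsto c atTop (𝓝 0) := by
  unfold c
  have h := (tendsto_one_div_add_atTop_nhds_zero_nat (𝕜 := ℝ)).comp (tendsto_add_atTop_nat 1)
  refine h.congr fun k => ?_
  simp only [Function.comp]
  push_cast
  ring

/-- the kernel -/
def G : Set E := {x | f x = 0}

theorem isClosed_G : IsClosed G := isClosed_eq f.continuous continuous_const

theorem infDist_le (x : E) : Metric.infDist x G ≤ |f x| := by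
  have h1 : ∀ k : ℕ, Metric.infDist x G ≤ |f x| * ((1 + c k) / (1 - c k)) := by
    intro k
    have hk : 0 < 1 - c k := by linarith [c_lt_one k]
    set u : E := (f x / (1 - c k)) • e k with hu
    have hfu : f u = f x := by
      rw [hu, map_smul, f_e, smul_eq_mul, div_mul_cancel₀ _ hk.ne']
    have hmem : x - u ∈ G := by
      show f (x - u) = 0
      rw [map_sub, hfu, sub_self]
    refine (Metric.infDist_le_dist_of_mem hmem).trans ?_
    rw [dist_eq_norm, sub_sub_cancel, hu, norm_smul, Real.norm_eq_abs, abs_div, abs_of_pos hk]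
    have h2 : ‖e k‖ ≤ 1 + c k := by
      have h3 : ‖e k‖ ^ 2 ≤ (1 + c k) ^ 2 := by rw [norm_e]; nlinarith [c_pos k]
      exact le_of_sq_le_sq h3 (by linarith [c_pos k])
    calc |f x| / (1 - c k) * ‖e k‖ ≤ |f x| / (1 - c k) * (1 + c k) :=
          mul_le_mul_of_nonneg_left h2 (by positivity)
      _ = |f x| * ((1 + c k) / (1 - c k)) := by ring
  have h2 : Tendsto (fun k => |f x| * ((1 + c k) / (1 - c k))) atTop
      (𝓝 (|f x| * ((1 + 0) / (1 - 0)))) := by
    refine Tendsto.const_mul _ (Tendsto.div (c_tendsto.const_add 1) (c_tendsto.const_sub 1) ?_)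
    norm_num
  have h3 := ge_of_tendsto' h2 h1
  simpa using h3

theorem set_sub : {x : E | ∃! y : E, y ∈ G ∧ dist x y = Metric.infDist x G} ⊆ G := by
  rintro x ⟨y, ⟨hyG, hy⟩, -⟩
  by_contra hx
  have hne : x - y ≠ 0 := by
    intro h
    exact hx (by rwa [sub_eq_zero.mp h])
  have h1 := f_lt (x - y) hne
  have h2 : f (x - y) = f x := by
    have : f y = 0 := hyG
    rw [map_sub, this, sub_zero]
  rw [h2, ← dist_eq_norm, hy] at h1
  exact absurd (infDist_le x) (not_le.mpr h1)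

theorem meagre_G : IsMeagre G := by
  have h1 : IsNowhereDense G := by
    rw [isClosed_G.isNowhereDense_iff]
    rw [Set.eq_empty_iff_forall_notMem]
    intro x hx
    rw [mem_interior_iff_mem_nhds, Metric.mem_nhds_iff] at hx
    obtain ⟨r, hr, hball⟩ := hx
    have hk : 0 < 1 - c 0 := by linarith [c_lt_one 0]
    have hn : 0 < ‖e 0‖ + 1 := by positivity
    have h2 : x + (r / 2 / (‖e 0‖ + 1)) • e 0 ∈ G := by
      apply hball
      rw [Metric.mem_ball, dist_eq_norm, add_sub_cancel_left, norm_smul, Real.norm_eq_abs,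
        abs_of_pos (by positivity)]
      rw [div_mul_eq_mul_div, div_lt_iff₀ hn]
      nlinarith [norm_nonneg (e 0)]
    have h3 : x ∈ G := hball (Metric.mem_ball_self hr)
    have h4 : f x = 0 := h3
    have h5 : f (x + (r / 2 / (‖e 0‖ + 1)) • e 0) = 0 := h2
    rw [map_add, h4, zero_add, map_smul, f_e, smul_eq_mul] at h5
    have h6 : 0 < r / 2 / (‖e 0‖ + 1) * (1 - c 0) := by positivity
    linarith
  exact h1.isMeagre

end

end Pool.Agent.H130R5.NP
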