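import Mathlib
import Pool.Agent.H130R5.UB

set_option autoImplicit false

open Filter Topology

namespace Pool.Agent.H130R5.SCDP

variable {X : Type*} [NormedAddCommGroup X] [NormedSpace ℝ X]

/-- partial sum operators applied to a vector -/
noncomputable def PP (e : ℕ → X) (es : ℕ → X →L[ℝ] ℝ) (N : ℕ) (x : X) : X :=
  ∑ k ∈ Finset.range N, es k x • e k

theorem abs_sum_bound (e : ℕ → X) (es : ℕ → X →L[ℝ] ℝ) (C : ℝ)
    (hC : ∀ x (A : Finset ℕ), ‖∑ k ∈ A, es k x • e k‖ ≤ C * ‖x‖) (ψ : X →L[ℝ] ℝ) (N : ℕ) (x : X)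
    (hx : ‖x‖ ≤ 1) : ∑ k ∈ Finset.range N, |ψ (e k) * es k x| ≤ 2 * (‖ψ‖ * |C|) := by
  classical
  have h1 : ∀ A : Finset ℕ, |ψ (∑ k ∈ A, es k x • e k)| ≤ ‖ψ‖ * |C| := by
    intro A
    refine (ψ.le_opNorm _).trans (mul_le_mul_of_nonneg_left ?_ (norm_nonneg _))
    refine (hC x A).trans ?_
    calc C * ‖x‖ ≤ |C| * ‖x‖ := mul_le_mul_of_nonneg_right (le_abs_self C) (norm_nonneg _)
      _ ≤ |C| * 1 := mul_le_mul_of_nonneg_left hx (abs_nonneg _)
      _ = |C| := mul_one _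
  have h2 : ∀ A : Finset ℕ, ψ (∑ k ∈ A, es k x • e k) = ∑ k ∈ A, ψ (e k) * es k x := by
    intro A
    rw [map_sum]
    apply Finset.sum_congr rfl
    intro k _
    rw [map_smul, smul_eq_mul, mul_comm]
  set A := (Finset.range N).filter fun k => 0 ≤ ψ (e k) * es k x with hA
  set B := (Finset.range N).filter fun k => ¬ 0 ≤ ψ (e k) * es k x with hB
  have h3 : ∑ k ∈ Finset.range N, |ψ (e k) * es k x| =
      ∑ k ∈ A, ψ (e k) * es k x - ∑ k ∈ B, ψ (e k) * es k x := by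
    rw [← Finset.sum_filter_add_sum_filter_not (Finset.range N)
      (fun k => 0 ≤ ψ (e k) * es k x) (fun k => |ψ (e k) * es k x|), sub_eq_add_neg,
      ← Finset.sum_neg_distrib]
    congr 1
    · apply Finset.sum_congr rfl
      intro k hk
      rw [Finset.mem_filter] at hk
      exact abs_of_nonneg hk.2
    · apply Finset.sum_congr rfl
      intro k hk
      rw [Finset.mem_filter] at hk
      exact abs_of_neg (not_le.mp hk.2)
  rw [h3, ← h2, ← h2]
  have h4 := (le_abs_self _).trans (h1 A)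
  have h5 := (neg_le_abs _).trans (h1 B)
  linarith

theorem main_step (e : ℕ → X) (es : ℕ → X →L[ℝ] ℝ) (C : ℝ)
    (hs : ∀ x, HasSum (fun k => es k x • e k) x)
    (hC : ∀ x (A : Finset ℕ), ‖∑ k ∈ A, es k x • e k‖ ≤ C * ‖x‖)
    (ψ : X →L[ℝ] ℝ) (c : ℝ) (hc : 0 < c)
    (hstar : ∀ f ∈ Submodule.span ℝ (Set.range es), f ≠ 0 → ∀ α : ℝ, 0 < α →
      ∃ x : X, ‖x‖ ≤ 1 ∧ ‖f‖ - α < f x ∧ c < ψ x)
    (f : X →L[ℝ] ℝ) (hf : f ∈ Submodule.span ℝ (Set.range es)) (hf0 : f ≠ 0)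
    (α : ℝ) (hα : 0 < α) (N : ℕ) (σ : ℝ) (hσ : σ = 1 ∨ σ = -1) :
    ∃ f' ∈ Submodule.span ℝ (Set.range es), f' ≠ 0 ∧ ∃ α' : ℝ, 0 < α' ∧ ∃ N', N ≤ N' ∧
      ∀ x : X, ‖x‖ ≤ 1 → ‖f'‖ - α' < f' x → ‖f‖ - α < f x ∧ c / 2 < σ * ψ (PP e es N' x) := by
  set M : ℝ := 2 * (‖ψ‖ * |C|) with hM
  have hM0 : 0 ≤ M := by positivity
  have hMb : ∀ N x, ‖x‖ ≤ 1 → |ψ (PP e es N x)| ≤ M := by
    intro N x hx
    have h1 := abs_sum_bound e es C hC ψ N x hx
    refine le_trans ?_ h1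
    have h2 : ψ (PP e es N x) = ∑ k ∈ Finset.range N, ψ (e k) * es k x := by
      unfold PP
      rw [map_sum]
      apply Finset.sum_congr rfl
      intro k _
      rw [map_smul, smul_eq_mul, mul_comm]
    rw [h2]
    exact Finset.abs_sum_le_sum_abs _ _
  set t : ℝ := 2 * (c + M) / α with ht
  have ht0 : 0 < t := by positivity
  set κ : ℝ := min (α / 4) (c / (4 * t)) with hκ
  have hκ0 : 0 < κ := lt_min (by positivity) (by positivity)
  have hκ1 : κ ≤ α / 4 := min_le_left _ _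
  have hκ2 : t * κ ≤ c / 4 := by
    calc t * κ ≤ t * (c / (4 * t)) := mul_le_mul_of_nonneg_left (min_le_right _ _) ht0.le
      _ = c / 4 := by field_simp
  -- a point
  obtain ⟨x0, hx0, hx1, hx2⟩ : ∃ x : X, ‖x‖ ≤ 1 ∧ ‖f‖ - κ < f x ∧ c < σ * ψ x := by
    rcases hσ with rfl | rfl
    · obtain ⟨x, h1, h2, h3⟩ := hstar f hf hf0 κ hκ0
      exact ⟨x, h1, h2, by linarith⟩
    · obtain ⟨x, h1, h2, h3⟩ := hstar (-f) (Submodule.neg_mem _ hf) (neg_ne_zero.mpr hf0) κ hκ0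
      refine ⟨-x, by rwa [norm_neg], ?_, ?_⟩
      · rw [norm_neg] at h2
        rw [map_neg]
        exact h2
      · rw [map_neg]; linarith
  have hconv : Tendsto (fun n => σ * ψ (PP e es n x0)) atTop (𝓝 (σ * ψ x0)) :=
    ((ψ.continuous.tendsto x0).comp (hs x0).tendsto_sum_nat).const_mul σ
  obtain ⟨N', hN', hN''⟩ := ((eventually_ge_atTop N).and
    (hconv.eventually (lt_mem_nhds hx2))).exists
  -- the functional ψ ∘ P
  set h : X →L[ℝ] ℝ := ∑ k ∈ Finset.range N', (σ * ψ (e k)) • es k with hh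
  have hhx : ∀ x, h x = σ * ψ (PP e es N' x) := by
    intro x
    rw [hh, ContinuousLinearMap.sum_apply]
    unfold PP
    rw [map_sum, Finset.mul_sum]
    apply Finset.sum_congr rfl
    intro k _
    rw [map_smul, smul_eq_mul]
    show (σ * ψ (e k)) * es k x = _
    ring
  have hhmem : h ∈ Submodule.span ℝ (Set.range es) :=
    Submodule.sum_mem _ fun k _ => Submodule.smul_mem _ _ (Submodule.subset_span ⟨k, rfl⟩)
  have hσ1 : |σ| = 1 := by rcases hσ with rfl | rfl <;> simp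
  have hhM : ∀ x, ‖x‖ ≤ 1 → h x ≤ M := by
    intro x hx
    rw [hhx]
    refine (le_abs_self _).trans ?_
    rw [abs_mul, hσ1, one_mul]
    exact hMb N' x hx
  set f' := h + t • f with hf'
  have hf'x : ∀ x, f' x = h x + t * f x := fun x => rfl
  have hbig : c + t * (‖f‖ - κ) < f' x0 := by
    rw [hf'x, hhx]
    have := mul_lt_mul_of_pos_left hx1 ht0
    linarith
  have hfn : f' x0 ≤ ‖f'‖ := by
    refine (le_abs_self _).trans ((f'.le_opNorm x0).trans ?_)
    exact mul_le_of_le_one_right (norm_nonneg _) hx0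
  have hfle : ∀ x, ‖x‖ ≤ 1 → f x ≤ ‖f‖ := fun x hx =>
    (le_abs_self _).trans ((f.le_opNorm x).trans (mul_le_of_le_one_right (norm_nonneg _) hx))
  refine ⟨f', Submodule.add_mem _ hhmem (Submodule.smul_mem _ _ hf), ?_, c / 4, by linarith, N',
    hN', ?_⟩
  · intro h0
    rw [h0] at hbig
    have h1 : (0 : X →L[ℝ] ℝ) x0 = 0 := rfl
    rw [h1] at hbig
    have h2 : 0 ≤ t * ‖f‖ := by positivity
    nlinarith
  · intro x hx hx'
    have h1 : c + t * ‖f‖ - t * κ - c / 4 < h x + t * f x := by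
      rw [← hf'x]; nlinarith
    have h2 := mul_le_mul_of_nonneg_left (hfle x hx) ht0.le
    have h3 := hhM x hx
    refine ⟨?_, ?_⟩
    · have h4 : t * (‖f‖ - α) < t * f x := by
        have h5 : t * α = 2 * (c + M) := by rw [ht]; field_simp
        nlinarith
      exact lt_of_mul_lt_mul_left h4 ht0.le
    · rw [← hhx]; linarith

theorem main_induction (e : ℕ → X) (es : ℕ → X →L[ℝ] ℝ) (C : ℝ)
    (hs : ∀ x, HasSum (fun k => es k x • e k) x)
    (hC : ∀ x (A : Finset ℕ), ‖∑ k ∈ A, es k x • e k‖ ≤ C * ‖x‖)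
    (ψ : X →L[ℝ] ℝ) (c : ℝ) (hc : 0 < c)
    (hstar : ∀ f ∈ Submodule.span ℝ (Set.range es), f ≠ 0 → ∀ α : ℝ, 0 < α →
      ∃ x : X, ‖x‖ ≤ 1 ∧ ‖f‖ - α < f x ∧ c < ψ x)
    (hes : es 0 ≠ 0) (m : ℕ) :
    ∃ f ∈ Submodule.span ℝ (Set.range es), f ≠ 0 ∧ ∃ α : ℝ, 0 < α ∧ ∃ (N : ℕ) (σ : ℝ),
      (σ = 1 ∨ σ = -1) ∧ ∀ x : X, ‖x‖ ≤ 1 → ‖f‖ - α < f x →
        c / 2 < σ * ψ (PP e es N x) ∧ m * c ≤ ∑ k ∈ Finset.range N, |ψ (e k) * es k x| := by
  induction m with
  | zero =>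
    obtain ⟨f', h1, h2, α', h3, N', h4, h5⟩ := main_step e es C hs hC ψ c hc hstar (es 0)
      (Submodule.subset_span ⟨0, rfl⟩) hes 1 one_pos 0 1 (Or.inl rfl)
    refine ⟨f', h1, h2, α', h3, N', 1, Or.inl rfl, fun x hx hx' => ⟨(h5 x hx hx').2, ?_⟩⟩
    simp only [Nat.cast_zero, zero_mul]
    exact Finset.sum_nonneg fun _ _ => abs_nonneg _
  | succ m ih =>
    obtain ⟨f, hf, hf0, α, hα, N, σ, hσ, hH⟩ := ih
    obtain ⟨f', h1, h2, α', h3, N', h4, h5⟩ := main_step e es C hs hC ψ c hc hstar f hf hf0 α hα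
      N (-σ) (by rcases hσ with rfl | rfl <;> simp)
    refine ⟨f', h1, h2, α', h3, N', -σ, by rcases hσ with rfl | rfl <;> simp,
      fun x hx hx' => ⟨(h5 x hx hx').2, ?_⟩⟩
    obtain ⟨h6, h7⟩ := h5 x hx hx'
    obtain ⟨h8, h9⟩ := hH x hx h6
    have h10 : ψ (PP e es N' x) - ψ (PP e es N x) = ∑ k ∈ Finset.Ico N N', ψ (e k) * es k x := by
      have h11 : ∀ n, ψ (PP e es n x) = ∑ k ∈ Finset.range n, ψ (e k) * es k x := by
        intro n
        unfold PP
        rw [map_sum]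
        apply Finset.sum_congr rfl
        intro k _
        rw [map_smul, smul_eq_mul, mul_comm]
      rw [h11, h11, Finset.sum_Ico_eq_sub _ h4]
    have h11 : c ≤ |ψ (PP e es N' x) - ψ (PP e es N x)| := by
      rcases hσ with rfl | rfl
      · refine le_trans ?_ (neg_le_abs _)
        linarith
      · refine le_trans ?_ (le_abs_self _)
        linarith
    have h12 : c ≤ ∑ k ∈ Finset.Ico N N', |ψ (e k) * es k x| := by
      rw [h10] at h11
      exact h11.trans (Finset.abs_sum_le_sum_abs _ _)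
    have h13 : ∑ k ∈ Finset.range N', |ψ (e k) * es k x| =
        ∑ k ∈ Finset.range N, |ψ (e k) * es k x| + ∑ k ∈ Finset.Ico N N', |ψ (e k) * es k x| := by
      rw [Finset.sum_Ico_eq_sub _ h4]; ring
    rw [h13]
    push_cast
    linarith

/-- In every Banach space with an unconditional basis, the origin is an SCD point of the ball. -/
theorem zero_scd [CompleteSpace X] (e : ℕ → X)
    (he : ∀ x : X, ∃! a : ℕ → ℝ, HasSum (fun n => a n • e n) x) :
    ∃ (f : ℕ → (X →L[ℝ] ℝ)) (α : ℕ → ℝ),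
      (∀ n, f n ≠ 0 ∧ 0 < α n) ∧
      ∀ y : ℕ → X,
        (∀ n, y n ∈ Metric.closedBall (0 : X) 1 ∧ ‖f n‖ - α n < f n (y n)) →
        (0 : X) ∈ closure (convexHull ℝ (Set.range y)) := by
  classical
  obtain ⟨es, C, hs, hC⟩ := UB.exists_coord e he
  have hes : es 0 ≠ 0 := by
    intro h0
    have h1 : HasSum (fun n => (fun n => if n = 0 then (1 : ℝ) else 0) n • e n) (e 0) := by
      have := hasSum_single (f := fun n => (if n = 0 then (1 : ℝ) else 0) • e n) 0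
        (fun n hn => by simp [hn])
      simpa using this
    have h2 := (he (e 0)).unique h1 (hs (e 0))
    have h3 := congrFun h2 0
    rw [h0] at h3
    simp at h3
  obtain ⟨D, hDc, hD⟩ : TopologicalSpace.IsSeparable
      ((Submodule.span ℝ (Set.range es) : Submodule ℝ (X →L[ℝ] ℝ)) : Set (X →L[ℝ] ℝ)) :=
    (Set.countable_range es).isSeparable.span
  have hDne : D.Nonempty := by
    have h1 : (0 : X →L[ℝ] ℝ) ∈ closure D := hD (Submodule.zero_mem _)
    exact closure_nonempty_iff.mp ⟨_, h1⟩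
  obtain ⟨dn, hdn⟩ := hDc.exists_eq_range hDne
  refine ⟨fun n => if dn (Nat.unpair n).1 = 0 then es 0 else dn (Nat.unpair n).1,
    fun n => 1 / (((Nat.unpair n).2 : ℝ) + 1), fun n => ⟨?_, by positivity⟩, ?_⟩
  · show (if dn (Nat.unpair n).1 = 0 then es 0 else dn (Nat.unpair n).1) ≠ 0
    split_ifs with h
    · exact hes
    · exact h
  · intro y hy
    by_contra hcon
    obtain ⟨ψ, c, hc, hψ⟩ := geometric_hahn_banach_point_closed
      (convex_convexHull ℝ (Set.range y)).closure isClosed_closure hcon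
    rw [map_zero] at hc
    have hψy : ∀ n, c < ψ (y n) := fun n =>
      hψ _ (subset_closure (subset_convexHull ℝ _ ⟨n, rfl⟩))
    have hstar : ∀ f ∈ Submodule.span ℝ (Set.range es), f ≠ 0 → ∀ α : ℝ, 0 < α →
        ∃ x : X, ‖x‖ ≤ 1 ∧ ‖f‖ - α < f x ∧ c < ψ x := by
      intro f hf hf0 α hα
      have hfn : 0 < ‖f‖ := norm_pos_iff.mpr hf0
      obtain ⟨g, hgD, hg⟩ := Metric.mem_closure_iff.mp (hD hf) (min (α / 4) ‖f‖)
        (lt_min (by linarith) hfn)
      rw [hdn] at hgD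
      obtain ⟨i, rfl⟩ := hgD
      rw [dist_eq_norm] at hg
      have hg1 : ‖f - dn i‖ < α / 4 := hg.trans_le (min_le_left _ _)
      have hg2 : ‖f - dn i‖ < ‖f‖ := hg.trans_le (min_le_right _ _)
      have hg0 : dn i ≠ 0 := by
        intro h0
        rw [h0, sub_zero] at hg2
        exact lt_irrefl _ hg2
      obtain ⟨j, hj⟩ := exists_nat_one_div_lt (show (0 : ℝ) < α / 2 by linarith)
      obtain ⟨h1, h2⟩ := hy (Nat.pair i j)
      simp only [Nat.unpair_pair, if_neg hg0] at h2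
      rw [mem_closedBall_zero_iff] at h1
      refine ⟨y (Nat.pair i j), h1, ?_, hψy _⟩
      have h3 : |(f - dn i) (y (Nat.pair i j))| ≤ ‖f - dn i‖ :=
        ((f - dn i).le_opNorm _).trans (mul_le_of_le_one_right (norm_nonneg _) h1)
      have h4 : (f - dn i) (y (Nat.pair i j)) = f (y (Nat.pair i j)) - dn i (y (Nat.pair i j)) :=
        rfl
      rw [h4] at h3
      have h5 := (abs_le.mp h3).1
      have h6 : ‖f‖ ≤ ‖dn i‖ + ‖f - dn i‖ := by
        have := norm_add_le (dn i) (f - dn i)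
        rwa [add_sub_cancel] at this
      linarith
    obtain ⟨m, hm⟩ := exists_nat_gt (2 * (‖ψ‖ * |C|) / c)
    obtain ⟨f, hf, hf0, α, hα, N, σ, hσ, hH⟩ := main_induction e es C hs hC ψ c hc hstar hes m
    obtain ⟨x, hx1, hx2, -⟩ := hstar f hf hf0 α hα
    have h1 := (hH x hx1 hx2).2
    have h2 := abs_sum_bound e es C hC ψ N x hx1
    rw [div_lt_iff₀ hc] at hm
    linarith

end Pool.Agent.H130R5.SCDP
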